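import Pool.Agent.Helper52.ES.Spec

set_option autoImplicit false

/-! # (TR2) from the formula graph to the drawing -/

namespace Pool.Agent.Helper56.ES

open Pool.Agent.Helper52.ES Pool.Agent.Helper52.Grid

/-- four candidates, exactly two of which are taken -/
theorem TR2_four {α : Type} (b1 b2 b3 b4 : Bool) (n1 n2 n3 n4 : α)
    (hs : b1.toNat + b2.toNat + b3.toNat + b4.toNat = 2)
    (h12 : n1 ≠ n2) (h13 : n1 ≠ n3) (h14 : n1 ≠ n4) (h23 : n2 ≠ n3) (h24 : n2 ≠ n4)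
    (h34 : n3 ≠ n4) :
    ∃ b c, b ≠ c ∧ ∀ d, ((b1 = true ∧ d = n1) ∨ (b2 = true ∧ d = n2) ∨ (b3 = true ∧ d = n3) ∨
      (b4 = true ∧ d = n4)) ↔ (d = b ∨ d = c) := by
  cases b1 <;> cases b2 <;> cases b3 <;> cases b4 <;> simp at hs
  · exact ⟨n3, n4, h34, fun d => by simp⟩
  · exact ⟨n2, n4, h24, fun d => by simp⟩
  · exact ⟨n2, n3, h23, fun d => by simp⟩
  · exact ⟨n1, n4, h14, fun d => by simp⟩
  · exact ⟨n1, n3, h13, fun d => by simp⟩
  · exact ⟨n1, n2, h12, fun d => by simp⟩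

/-- the bit of the ring pair `c`, `c + 1` -/
def TR2_rb (p : Par) (hU vU : ℕ → ℕ → Bool) (i c : ℕ) : Bool :=
  if c = 0 then hU p.K0 (7 + 6 * i) else if c = 1 then vU p.K0 (7 + 6 * i)
  else if c = 2 then hU p.K0 (8 + 6 * i) else vU (p.K0 + 1) (7 + 6 * i)

/-- used optional pairs, in one direction -/
def TR2_U1 (p : Par) (hU vU : ℕ → ℕ → Bool) (a b : Vx) : Prop :=
  (∃ x y, x < p.K0 ∧ p.h x y = 2 ∧ hU x y = true ∧ a = lat x y ∧ b = lat (x + 1) y) ∨
  (∃ x y, x < p.K0 ∧ p.v x y = 2 ∧ vU x y = true ∧ a = lat x y ∧ b = lat x (y + 1)) ∨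
  (∃ i c, i < p.rows ∧ c < 4 ∧ TR2_rb p hU vU i c = true ∧ a = ring i c ∧
    b = ring i ((c + 1) % 4))

/-- used pairs -/
def TR2_E (p : Par) (hU vU : ℕ → ℕ → Bool) (a b : Vx) : Prop :=
  p.F a b ∨ TR2_U1 p hU vU a b ∨ TR2_U1 p hU vU b a

theorem TR2_O {p : Par} {hU vU : ℕ → ℕ → Bool} {a b : Vx} (h : TR2_U1 p hU vU a b) :
    p.O1 a b := by
  rcases h with ⟨x, y, h1, h2, -, rfl, rfl⟩ | ⟨x, y, h1, h2, -, rfl, rfl⟩ |
    ⟨i, c, h1, h2, -, rfl, rfl⟩
  · exact Par.O1.hor x y h1 h2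
  · exact Par.O1.ver x y h1 h2
  · exact Par.O1.rin i c h1 h2

theorem TR2_symm {p : Par} {hU vU : ℕ → ℕ → Bool} {a b : Vx} (h : TR2_E p hU vU a b) :
    TR2_E p hU vU b a := by
  rcases h with h | h | h
  · exact Or.inl (Or.symm h)
  · exact Or.inr (Or.inr h)
  · exact Or.inr (Or.inl h)

theorem TR2_hub {p : Par} (h : p.NF) {x y : ℕ} (hh : x = p.K0 → ∀ i, y = 7 + 6 * i → False) :
    p.hub x y = false := by
  rw [Bool.eq_false_iff]
  intro h1
  obtain ⟨h2, i, -, h3⟩ := (h.hubI x y).1 h1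
  exact hh h2 i h3

theorem TR2_h {p : Par} {x y : ℕ} (hx : x < p.K0) : p.h x y = hC p.s p.M x y := by
  unfold Par.h
  rw [if_pos hx]

theorem TR2_v {p : Par} {x y : ℕ} (hx : x < p.K0) : p.v x y = vC p.s p.M x y := by
  unfold Par.v
  rw [if_pos hx]

/-- costs of the formula graph at the right end -/
theorem TR2_hC (p : Par) (j y : ℕ) : hC p.s p.M (p.K0 + j) y =
    if y < 4 then (if y = 3 ∧ j < 2 then 0 else 4)
    else if (y - 4) / 6 < p.rows then hR ((y - 4) % 6) j else 4 := by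
  unfold hC hT Par.K0 Par.rows
  rw [if_neg (show ¬ (5 + 4 * p.s.length + j < 5) by omega),
    if_neg (show ¬ (5 + 4 * p.s.length + j < 5 + 4 * p.s.length) by omega),
    if_neg (show ¬ (5 + 4 * p.s.length + j < 5) by omega),
    if_neg (show ¬ (5 + 4 * p.s.length + j < 5 + 4 * p.s.length) by omega),
    show 5 + 4 * p.s.length + j - (5 + 4 * p.s.length) = j by omega]
  have h1 : (5 + 4 * p.s.length + j < 7 + 4 * p.s.length) ↔ j < 2 := by omega
  simp only [h1]

/-- costs of the formula graph at the right end -/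
theorem TR2_vC (p : Par) (j y : ℕ) : vC p.s p.M (p.K0 + j) y =
    if y < 4 then (if y = 3 ∧ j = 2 then 0 else 4)
    else if (y - 4) / 6 < p.rows then vR ((y - 4) / 6) ((y - 4) % 6) j else 4 := by
  unfold vC vT Par.K0 Par.rows
  rw [if_neg (show ¬ (5 + 4 * p.s.length + j < 5) by omega),
    if_neg (show ¬ (5 + 4 * p.s.length + j < 5 + 4 * p.s.length) by omega),
    if_neg (show ¬ (5 + 4 * p.s.length + j < 5) by omega),
    if_neg (show ¬ (5 + 4 * p.s.length + j < 5 + 4 * p.s.length) by omega),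
    show 5 + 4 * p.s.length + j - (5 + 4 * p.s.length) = j by omega]
  have h1 : (5 + 4 * p.s.length + j = 7 + 4 * p.s.length) ↔ j = 2 := by omega
  simp only [h1]

/-- horizontal costs of a row at the right end -/
theorem TR2_hCr (p : Par) {i : ℕ} (hi : i < p.rows) {r : ℕ} (hr : r < 6) (j : ℕ) :
    hC p.s p.M (p.K0 + j) (4 + r + 6 * i) = hR r j := by
  rw [TR2_hC, if_neg (by omega), show (4 + r + 6 * i - 4) / 6 = i by omega,
    show (4 + r + 6 * i - 4) % 6 = r by omega, if_pos hi]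

/-- vertical costs of a row at the right end -/
theorem TR2_vCr (p : Par) {i : ℕ} (hi : i < p.rows) {r : ℕ} (hr : r < 6) (j : ℕ) :
    vC p.s p.M (p.K0 + j) (4 + r + 6 * i) = vR i r j := by
  rw [TR2_vC, if_neg (by omega), show (4 + r + 6 * i - 4) / 6 = i by omega,
    show (4 + r + 6 * i - 4) % 6 = r by omega, if_pos hi]

/-- every line is above the rows, in a row or below the rows -/
theorem TR2_line (p : Par) (y : ℕ) : y < 4 ∨ (∃ i < p.rows, ∃ r < 6, y = 4 + r + 6 * i) ∨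
    (4 ≤ y ∧ ¬ (y - 4) / 6 < p.rows) := by
  by_cases h1 : y < 4
  · exact Or.inl h1
  · right
    by_cases h2 : (y - 4) / 6 < p.rows
    · exact Or.inl ⟨(y - 4) / 6, h2, (y - 4) % 6, Nat.mod_lt _ (by norm_num), by omega⟩
    · exact Or.inr ⟨by omega, h2⟩

section degrees

variable {p : Par} {hU vU : ℕ → ℕ → Bool}

/-- a horizontal pair of the drawing is used -/
def TR2_hB (p : Par) (hU : ℕ → ℕ → Bool) (x y : ℕ) : Bool :=
  decide (p.h x y = 0) || (decide (x < p.K0) && (decide (p.h x y = 2) && hU x y))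

/-- a vertical pair of the drawing is used -/
def TR2_vB (p : Par) (vU : ℕ → ℕ → Bool) (x y : ℕ) : Bool :=
  decide (p.v x y = 0) || (decide (x < p.K0) && (decide (p.v x y = 2) && vU x y))

theorem TR2_hB_lt (nf : p.NF) (use : Use (hC p.s p.M) (vC p.s p.M) hU vU) {x y : ℕ}
    (hx : x < p.K0) : TR2_hB p hU x y = hU x y := by
  unfold TR2_hB
  rcases nf.h3 x y with h | h | h
  · rw [use.h0 x y (by rw [← TR2_h hx]; exact h)]
    simp [h]
  · simp [h, hx]
  · rw [use.h4 x y (by rw [← TR2_h hx]; omega) (by rw [← TR2_h hx]; omega)]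
    simp [h]

theorem TR2_vB_lt (nf : p.NF) (use : Use (hC p.s p.M) (vC p.s p.M) hU vU) {x y : ℕ}
    (hx : x < p.K0) : TR2_vB p vU x y = vU x y := by
  unfold TR2_vB
  rcases nf.v3 x y with h | h | h
  · rw [use.v0 x y (by rw [← TR2_v hx]; exact h)]
    simp [h]
  · simp [h, hx]
  · rw [use.v4 x y (by rw [← TR2_v hx]; omega) (by rw [← TR2_v hx]; omega)]
    simp [h]

theorem TR2_hB_ge (nf : p.NF) {x y : ℕ} (hx : p.K0 ≤ x + 1) :
    TR2_hB p hU x y = decide (p.h x y = 0) := by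
  unfold TR2_hB
  by_cases h : p.h x y = 2
  · have := (nf.oh x y h).2.1
    omega
  · simp [h]

theorem TR2_vB_ge {x y : ℕ} (hx : p.K0 ≤ x) :
    TR2_vB p vU x y = decide (p.v x y = 0) := by
  unfold TR2_vB
  simp [hx]

/-- the right neighbour -/
def TR2_nr (p : Par) (x y : ℕ) : Vx := if p.h x y = 0 then hm x y else lat (x + 1) y
/-- the left neighbour of `(x + 1, y)` -/
def TR2_nl (p : Par) (x y : ℕ) : Vx := if p.h x y = 0 then hm x y else lat x y
/-- the lower neighbour -/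
def TR2_nd (p : Par) (x y : ℕ) : Vx := if p.v x y = 0 then vm x y else lat x (y + 1)
/-- the upper neighbour of `(x, y + 1)` -/
def TR2_nu (p : Par) (x y : ℕ) : Vx := if p.v x y = 0 then vm x y else lat x y

theorem TR2_lat (fn : p.FN) {x y : ℕ} (hh : p.hub (x + 1) (y + 1) = false) (d : Vx) :
    TR2_E p hU vU (lat (x + 1) (y + 1)) d ↔
      ((TR2_hB p hU (x + 1) (y + 1) = true ∧ d = TR2_nr p (x + 1) (y + 1)) ∨
      (TR2_hB p hU x (y + 1) = true ∧ d = TR2_nl p x (y + 1)) ∨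
      (TR2_vB p vU (x + 1) (y + 1) = true ∧ d = TR2_nd p (x + 1) (y + 1)) ∨
      (TR2_vB p vU (x + 1) y = true ∧ d = TR2_nu p (x + 1) y)) := by
  unfold TR2_E
  rw [fn.lat (x + 1) (y + 1) d hh]
  simp only [Nat.add_sub_cancel, Nat.zero_lt_succ, true_and]
  unfold TR2_hB TR2_vB TR2_nr TR2_nl TR2_nd TR2_nu
  constructor
  · rintro ((⟨h1, h2⟩ | ⟨h1, h2⟩ | ⟨h1, h2⟩ | ⟨h1, h2⟩) |
      (⟨x', y', h1, h2, h3, h4, h5⟩ | ⟨x', y', h1, h2, h3, h4, h5⟩ | ⟨i, c, h1, h2, h3, h4, h5⟩) |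
      (⟨x', y', h1, h2, h3, h4, h5⟩ | ⟨x', y', h1, h2, h3, h4, h5⟩ | ⟨i, c, h1, h2, h3, h4, h5⟩))
    · left; simp [h1, h2]
    · right; left; simp [h1, h2]
    · right; right; left; simp [h1, h2]
    · right; right; right; simp [h1, h2]
    · simp only [Prod.mk.injEq, true_and, and_true] at h4
      obtain ⟨rfl, rfl⟩ := h4
      left; simp [h1, h2, h3, h5]
    · simp only [Prod.mk.injEq, true_and, and_true] at h4
      obtain ⟨rfl, rfl⟩ := h4
      right; right; left; simp [h1, h2, h3, h5]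
    · simp at h4
    · simp only [Prod.mk.injEq, true_and, and_true, Nat.add_right_cancel_iff] at h5
      obtain ⟨rfl, rfl⟩ := h5
      right; left; simp [h1, h2, h3, h4]
    · simp only [Prod.mk.injEq, true_and, and_true, Nat.add_right_cancel_iff] at h5
      obtain ⟨rfl, rfl⟩ := h5
      right; right; right; simp [h1, h2, h3, h4]
    · simp at h5
  · rintro (⟨h1, h2⟩ | ⟨h1, h2⟩ | ⟨h1, h2⟩ | ⟨h1, h2⟩)
    · by_cases h : p.h (x + 1) (y + 1) = 0
      · simp only [h, if_true] at h2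
        exact Or.inl (Or.inl ⟨h, h2⟩)
      · rw [if_neg h] at h2
        simp only [h, decide_false, Bool.false_or, Bool.and_eq_true, decide_eq_true_eq] at h1
        exact Or.inr (Or.inl (Or.inl ⟨_, _, h1.1, h1.2.1, h1.2.2, rfl, h2⟩))
    · by_cases h : p.h x (y + 1) = 0
      · simp only [h, if_true] at h2
        exact Or.inl (Or.inr (Or.inl ⟨h, h2⟩))
      · rw [if_neg h] at h2
        simp only [h, decide_false, Bool.false_or, Bool.and_eq_true, decide_eq_true_eq] at h1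
        exact Or.inr (Or.inr (Or.inl ⟨_, _, h1.1, h1.2.1, h1.2.2, h2, rfl⟩))
    · by_cases h : p.v (x + 1) (y + 1) = 0
      · simp only [h, if_true] at h2
        exact Or.inl (Or.inr (Or.inr (Or.inl ⟨h, h2⟩)))
      · rw [if_neg h] at h2
        simp only [h, decide_false, Bool.false_or, Bool.and_eq_true, decide_eq_true_eq] at h1
        exact Or.inr (Or.inl (Or.inr (Or.inl ⟨_, _, h1.1, h1.2.1, h1.2.2, rfl, h2⟩)))
    · by_cases h : p.v (x + 1) y = 0
      · simp only [h, if_true] at h2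
        exact Or.inl (Or.inr (Or.inr (Or.inr ⟨h, h2⟩)))
      · rw [if_neg h] at h2
        simp only [h, decide_false, Bool.false_or, Bool.and_eq_true, decide_eq_true_eq] at h1
        exact Or.inr (Or.inr (Or.inr (Or.inl ⟨_, _, h1.1, h1.2.1, h1.2.2, h2, rfl⟩)))

theorem TR2_two_lat (nf : p.NF) (fn : p.FN) (use : Use (hC p.s p.M) (vC p.s p.M) hU vU)
    {x y : ℕ} (h0 : p.fd x y ≠ 0) (hh : p.hub x y = false) :
    ∃ b c, b ≠ c ∧ ∀ d, TR2_E p hU vU (lat x y) d ↔ (d = b ∨ d = c) := by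
  obtain ⟨b1, b2, b3, b4⟩ := nf.box x y h0
  obtain ⟨x, rfl⟩ := Nat.exists_eq_add_of_le' b1
  obtain ⟨y, rfl⟩ := Nat.exists_eq_add_of_le' b3
  have key : (TR2_hB p hU (x + 1) (y + 1)).toNat + (TR2_hB p hU x (y + 1)).toNat +
      (TR2_vB p vU (x + 1) (y + 1)).toNat + (TR2_vB p vU (x + 1) y).toNat = 2 := by
    by_cases hx : x + 1 < p.K0
    · rw [TR2_hB_lt nf use hx, TR2_hB_lt nf use (show x < p.K0 by omega), TR2_vB_lt nf use hx,
        TR2_vB_lt nf use hx]
      refine use.deg x y ?_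
      unfold Vert
      simp only [Nat.add_sub_cancel]
      rw [← TR2_h hx, ← TR2_h (show x < p.K0 by omega), ← TR2_v hx, ← TR2_v hx]
      by_contra hc
      push Not at hc
      apply h0
      unfold Par.fd
      simp [hc.1, hc.2.1, hc.2.2.1, hc.2.2.2]
    · rw [TR2_hB_ge nf (by omega), TR2_hB_ge nf (by omega), TR2_vB_ge (by omega),
        TR2_vB_ge (by omega)]
      have h2 : p.fd (x + 1) (y + 1) = 2 := by
        have h3 := nf.two _ _ hh
        have h4 : p.fd (x + 1) (y + 1) ≠ 1 := fun h => hx (nf.one _ _ h)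
        omega
      rw [← h2]
      unfold Par.fd
      simp only [Nat.add_sub_cancel, Nat.zero_lt_succ, true_and]
      by_cases c1 : p.h (x + 1) (y + 1) = 0 <;> by_cases c2 : p.h x (y + 1) = 0 <;>
        by_cases c3 : p.v (x + 1) (y + 1) = 0 <;> by_cases c4 : p.v (x + 1) y = 0 <;>
        simp [c1, c2, c3, c4]
  obtain ⟨b, c, hbc, hd⟩ := TR2_four _ _ _ _ (TR2_nr p (x + 1) (y + 1)) (TR2_nl p x (y + 1))
    (TR2_nd p (x + 1) (y + 1)) (TR2_nu p (x + 1) y) key
    (by unfold TR2_nr TR2_nl; split_ifs <;> simp <;> omega)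
    (by unfold TR2_nr TR2_nd; split_ifs <;> simp)
    (by unfold TR2_nr TR2_nu; split_ifs <;> simp)
    (by unfold TR2_nl TR2_nd; split_ifs <;> simp)
    (by unfold TR2_nl TR2_nu; split_ifs <;> simp)
    (by unfold TR2_nd TR2_nu; split_ifs <;> simp <;> omega)
  exact ⟨b, c, hbc, fun d => (TR2_lat fn hh d).trans (hd d)⟩

/-- a vertex which is not a site or a ring vertex has no optional neighbours -/
theorem TR2_noU {a b : Vx} (h0 : a.1 ≠ 0) (g3 : a.1 ≠ 3) : ¬ (TR2_U1 p hU vU a b ∨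
    TR2_U1 p hU vU b a) := by
  rintro ((⟨x', y', h1, h2, h3, h4, h5⟩ | ⟨x', y', h1, h2, h3, h4, h5⟩ |
    ⟨i, c, h1, h2, h3, h4, h5⟩) |
    (⟨x', y', h1, h2, h3, h4, h5⟩ | ⟨x', y', h1, h2, h3, h4, h5⟩ | ⟨i, c, h1, h2, h3, h4, h5⟩))
  · exact h0 (by rw [h4])
  · exact h0 (by rw [h4])
  · exact g3 (by rw [h4])
  · exact h0 (by rw [h5])
  · exact h0 (by rw [h5])
  · exact g3 (by rw [h5])

theorem TR2_noE {a b : Vx} (h0 : a.1 ≠ 0) (h3 : a.1 ≠ 3) : TR2_E p hU vU a b ↔ p.F a b :=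
  ⟨fun h => h.resolve_right (TR2_noU h0 h3), Or.inl⟩

theorem TR2_two_hm (fn : p.FN) {x y : ℕ} (h : p.h x y = 0) :
    ∃ b c, b ≠ c ∧ ∀ d, TR2_E p hU vU (hm x y) d ↔ (d = b ∨ d = c) := by
  refine ⟨p.st x y 3, p.st (x + 1) y 1, ?_, fun d => ?_⟩
  · unfold Par.st
    split_ifs with h1 h2
    · simp
    · simp
    · simp
    · simp
  · rw [TR2_noE (by simp) (by simp), fn.hm]
    simp [h]

theorem TR2_two_vm (fn : p.FN) {x y : ℕ} (h : p.v x y = 0) :
    ∃ b c, b ≠ c ∧ ∀ d, TR2_E p hU vU (vm x y) d ↔ (d = b ∨ d = c) := by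
  refine ⟨p.st x y 2, p.st x (y + 1) 0, ?_, fun d => ?_⟩
  · unfold Par.st
    split_ifs with h1 h2
    · simp
    · simp
    · simp
    · simp
  · rw [TR2_noE (by simp) (by simp), fn.vm]
    simp [h]

theorem TR2_two_coin (fn : p.FN) {i c k : ℕ} (hi : i < p.rows) (hc : c < 4)
    (h1 : p.fk i c ≤ k) (h2 : k < p.e + 3) :
    ∃ b c', b ≠ c' ∧ ∀ d, TR2_E p hU vU (coin i c k) d ↔ (d = b ∨ d = c') := by
  refine ⟨if k = p.fk i c then ring i c else coin i c (k - 1),
    if k = p.e + 2 then p.mid i c else coin i c (k + 1), ?_, fun d => ?_⟩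
  · unfold Par.mid
    split_ifs <;> simp
  · rw [TR2_noE (by simp) (by simp), fn.coin i hi c hc k h1 h2]

/-- the bits of the two ring pairs at a ring vertex -/
theorem TR2_bits (nf : p.NF) (use : Use (hC p.s p.M) (vC p.s p.M) hU vU) {i : ℕ}
    (hi : i < p.rows) {c : ℕ} (hc : c < 4) :
    TR2_rb p hU vU i ((c + 1) % 4) = !TR2_rb p hU vU i c := by
  have e0 : p.K0 = p.K0 - 1 + 1 := by unfold Par.K0; omega
  have d1 := use.deg (p.K0 - 1) (6 + 6 * i)
  have d2 := use.deg (p.K0 - 1) (7 + 6 * i)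
  have d3 := use.deg p.K0 (6 + 6 * i)
  have d4 := use.deg p.K0 (7 + 6 * i)
  rw [← e0] at d1 d2
  rw [show 6 + 6 * i + 1 = 7 + 6 * i by omega] at d1 d3
  rw [show 7 + 6 * i + 1 = 8 + 6 * i by omega] at d2 d4
  -- costs
  have c1 : hC p.s p.M (p.K0 - 1) (7 + 6 * i) = 0 := by
    rw [← TR2_h (by omega)]
    exact (nf.k0l _).2 (Or.inr ⟨i, hi, by omega⟩)
  have c2 : hC p.s p.M (p.K0 - 1) (8 + 6 * i) = 4 := by
    rw [← TR2_h (by omega)]
    rcases nf.h3 (p.K0 - 1) (8 + 6 * i) with h | h | h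
    · rcases (nf.k0l _).1 h with h | ⟨j, hj, h | h | h⟩ <;> omega
    · have := (nf.oh _ _ h).2.1
      omega
    · exact h
  have c3 : vC p.s p.M p.K0 (6 + 6 * i) = 4 := by
    have := TR2_vCr p hi (show 2 < 6 by norm_num) 0
    rw [show 4 + 2 + 6 * i = 6 + 6 * i by omega] at this
    simpa [vR] using this
  have c4 : vC p.s p.M p.K0 (8 + 6 * i) = 0 := by
    have := TR2_vCr p hi (show 4 < 6 by norm_num) 0
    rw [show 4 + 4 + 6 * i = 8 + 6 * i by omega] at this
    simpa [vR] using this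
  have c5 : hC p.s p.M (p.K0 + 1) (7 + 6 * i) = 4 := by
    have := TR2_hCr p hi (show 3 < 6 by norm_num) 1
    rw [show 4 + 3 + 6 * i = 7 + 6 * i by omega] at this
    simpa [hR] using this
  have c6 : vC p.s p.M (p.K0 + 1) (6 + 6 * i) = 0 := by
    have := TR2_vCr p hi (show 2 < 6 by norm_num) 1
    rw [show 4 + 2 + 6 * i = 6 + 6 * i by omega] at this
    simpa [vR] using this
  have c7 : hC p.s p.M (p.K0 + 1) (8 + 6 * i) = 0 := by
    have := TR2_hCr p hi (show 4 < 6 by norm_num) 1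
    rw [show 4 + 4 + 6 * i = 8 + 6 * i by omega] at this
    simpa [hR] using this
  have c8 : vC p.s p.M (p.K0 + 1) (8 + 6 * i) = 4 := by
    have := TR2_vCr p hi (show 4 < 6 by norm_num) 1
    rw [show 4 + 4 + 6 * i = 8 + 6 * i by omega] at this
    simpa [vR] using this
  specialize d1 (Or.inr (Or.inl c1))
  specialize d2 (Or.inr (Or.inr (Or.inl c4)))
  specialize d3 (Or.inr (Or.inr (Or.inr (by simpa [show 7 + 6 * i - 1 = 6 + 6 * i by omega]
    using c6))))
  specialize d4 (Or.inl c7)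
  rw [use.h0 _ _ c1, use.v4 p.K0 (6 + 6 * i) (by rw [c3]; norm_num) (by rw [c3]; norm_num)] at d1
  rw [use.h4 (p.K0 - 1) (8 + 6 * i) (by rw [c2]; norm_num) (by rw [c2]; norm_num),
    use.v0 _ _ c4] at d2
  rw [use.h4 (p.K0 + 1) (7 + 6 * i) (by rw [c5]; norm_num) (by rw [c5]; norm_num),
    use.v0 _ _ c6] at d3
  rw [use.v4 (p.K0 + 1) (8 + 6 * i) (by rw [c8]; norm_num) (by rw [c8]; norm_num),
    use.h0 _ _ c7] at d4
  unfold TR2_rb
  interval_cases c
  · revert d1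
    cases hU p.K0 (7 + 6 * i) <;> cases vU p.K0 (7 + 6 * i) <;> simp
  · revert d2
    cases hU p.K0 (8 + 6 * i) <;> cases vU p.K0 (7 + 6 * i) <;> simp
  · revert d4
    cases hU p.K0 (8 + 6 * i) <;> cases vU (p.K0 + 1) (7 + 6 * i) <;> simp
  · revert d3
    cases hU p.K0 (7 + 6 * i) <;> cases vU (p.K0 + 1) (7 + 6 * i) <;> simp

theorem TR2_two_ring (nf : p.NF) (fn : p.FN) (use : Use (hC p.s p.M) (vC p.s p.M) hU vU)
    {i c : ℕ} (hi : i < p.rows) (hc : c < 4) :
    ∃ b c', b ≠ c' ∧ ∀ d, TR2_E p hU vU (ring i c) d ↔ (d = b ∨ d = c') := by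
  have key : ∀ d, TR2_E p hU vU (ring i c) d ↔ (d = coin i c (p.fk i c) ∨
      d = if TR2_rb p hU vU i c = true then ring i ((c + 1) % 4) else ring i ((c + 3) % 4)) := by
    intro d
    unfold TR2_E
    rw [fn.ring i hi c hc]
    refine or_congr Iff.rfl ?_
    have hb := TR2_bits nf use hi (c := (c + 3) % 4) (Nat.mod_lt _ (by norm_num))
    rw [show ((c + 3) % 4 + 1) % 4 = c by omega] at hb
    constructor
    · rintro ((⟨x', y', h1, h2, h3, h4, h5⟩ | ⟨x', y', h1, h2, h3, h4, h5⟩ |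
        ⟨i', c', h1, h2, h3, h4, h5⟩) |
        (⟨x', y', h1, h2, h3, h4, h5⟩ | ⟨x', y', h1, h2, h3, h4, h5⟩ |
        ⟨i', c', h1, h2, h3, h4, h5⟩))
      · simp at h4
      · simp at h4
      · simp only [Prod.mk.injEq, true_and, and_true] at h4
        obtain ⟨rfl, rfl⟩ := h4
        rw [if_pos h3, h5]
      · simp at h5
      · simp at h5
      · simp only [Prod.mk.injEq, true_and, and_true] at h5
        obtain ⟨rfl, rfl⟩ := h5
        have e1 : ((c' + 1) % 4 + 3) % 4 = c' := by omega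
        rw [e1] at hb
        rw [hb, h3]
        simp only [Bool.not_true, Bool.false_eq_true, if_false]
        rw [h4, e1]
    · intro h
      split_ifs at h with h1
      · exact Or.inl (Or.inr (Or.inr ⟨i, c, hi, hc, h1, rfl, h⟩))
      · refine Or.inr (Or.inr (Or.inr ⟨i, (c + 3) % 4, hi, Nat.mod_lt _ (by norm_num), ?_, h, ?_⟩))
        · cases h2 : TR2_rb p hU vU i ((c + 3) % 4)
          · rw [h2] at hb
            simp [hb] at h1
          · rfl
        · rw [show ((c + 3) % 4 + 1) % 4 = c by omega]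
  exact ⟨_, _, by split_ifs <;> simp, key⟩

end degrees

section conn

variable {p : Par} {hU vU : ℕ → ℕ → Bool} {S : Vx → Prop}

/-- closed sets -/
def TR2_Cl (p : Par) (hU vU : ℕ → ℕ → Bool) (S : Vx → Prop) : Prop :=
  ∀ a b, TR2_E p hU vU a b → S a → S b

theorem TR2_iff (cl : TR2_Cl p hU vU S) {a b : Vx} (h : TR2_E p hU vU a b) : S a ↔ S b :=
  ⟨cl a b h, cl b a (TR2_symm h)⟩

theorem TR2_lh (fn : p.FN) (cl : TR2_Cl p hU vU S) {x y : ℕ} (h : p.h x y = 0)
    (hh : p.hub x y = false) : S (lat x y) ↔ S (hm x y) :=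
  TR2_iff cl (Or.inl ((fn.lat x y _ hh).2 (Or.inl ⟨h, rfl⟩)))

theorem TR2_hl (fn : p.FN) (cl : TR2_Cl p hU vU S) {x y : ℕ} (h : p.h x y = 0)
    (hh : p.hub (x + 1) y = false) : S (hm x y) ↔ S (lat (x + 1) y) :=
  TR2_iff cl (TR2_symm (Or.inl ((fn.lat (x + 1) y _ hh).2
    (Or.inr (Or.inl ⟨by omega, h, rfl⟩)))))

theorem TR2_lv (fn : p.FN) (cl : TR2_Cl p hU vU S) {x y : ℕ} (h : p.v x y = 0)
    (hh : p.hub x y = false) : S (lat x y) ↔ S (vm x y) :=
  TR2_iff cl (Or.inl ((fn.lat x y _ hh).2 (Or.inr (Or.inr (Or.inl ⟨h, rfl⟩)))))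

theorem TR2_vl (fn : p.FN) (cl : TR2_Cl p hU vU S) {x y : ℕ} (h : p.v x y = 0)
    (hh : p.hub x (y + 1) = false) : S (vm x y) ↔ S (lat x (y + 1)) :=
  TR2_iff cl (TR2_symm (Or.inl ((fn.lat x (y + 1) _ hh).2
    (Or.inr (Or.inr (Or.inr ⟨by omega, h, rfl⟩))))))

theorem TR2_arm (fn : p.FN) (cl : TR2_Cl p hU vU S) {i c : ℕ} (hi : i < p.rows) (hc : c < 4) :
    ∀ k, p.fk i c ≤ k → k < p.e + 3 → (S (ring i c) ↔ S (coin i c k)) := by
  intro k hk
  induction k, hk using Nat.le_induction with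
  | base =>
    intro _
    exact TR2_iff cl (Or.inl ((fn.ring i hi c hc _).2 rfl))
  | succ k hk ih =>
    intro h2
    rw [ih (by omega)]
    refine TR2_iff cl (TR2_symm (Or.inl ((fn.coin i hi c hc (k + 1) (by omega) h2 _).2
      (Or.inl ?_))))
    rw [if_neg (by omega)]
    simp

theorem TR2_mid (fk : p.FK) (fn : p.FN) (cl : TR2_Cl p hU vU S) {i c : ℕ} (hi : i < p.rows)
    (hc : c < 4) : S (ring i c) ↔ S (p.mid i c) := by
  have h1 := fk.lt i hi c hc
  rw [TR2_arm fn cl hi hc (p.e + 2) (by omega) (by omega)]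
  refine TR2_iff cl (Or.inl ((fn.coin i hi c hc (p.e + 2) (by omega) (by omega) _).2
    (Or.inr ?_)))
  rw [if_pos rfl]

/-- a vertex of the drawing at each vertex of the formula graph -/
def TR2_psi (p : Par) (a : Pt) : Vx :=
  if a.1 < p.K0 then lat a.1 a.2
  else if a.1 = p.K0 then
    (if a.2 < 4 then lat p.K0 3
    else if (a.2 - 4) % 6 = 3 then ring ((a.2 - 4) / 6) 1
    else if (a.2 - 4) % 6 = 4 then ring ((a.2 - 4) / 6) 2
    else lat p.K0 a.2)
  else if a.1 = p.K0 + 1 then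
    (if a.2 < 4 then lat (p.K0 + 1) 3
    else if (a.2 - 4) % 6 = 1 then lat p.K0 a.2
    else if (a.2 - 4) % 6 = 2 then lat p.K0 a.2
    else if (a.2 - 4) % 6 = 3 then ring ((a.2 - 4) / 6) 0
    else ring ((a.2 - 4) / 6) 3)
  else (if a.2 < 4 then lat (p.K0 + 1) 3 else lat (p.K0 + 1) (a.2 - 1))

theorem TR2_psi0 {x y : ℕ} (hx : x < p.K0) : TR2_psi p (x, y) = lat x y := by
  unfold TR2_psi
  rw [if_pos hx]

theorem TR2_psi3 : TR2_psi p (p.K0, 3) = lat p.K0 3 := by
  unfold TR2_psi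
  simp

theorem TR2_psiK (i : ℕ) :
    TR2_psi p (p.K0, 5 + 6 * i) = lat p.K0 (5 + 6 * i) ∧
    TR2_psi p (p.K0, 7 + 6 * i) = ring i 1 ∧
    TR2_psi p (p.K0, 8 + 6 * i) = ring i 2 ∧
    TR2_psi p (p.K0, 9 + 6 * i) = lat p.K0 (9 + 6 * i) := by
  unfold TR2_psi
  refine ⟨?_, ?_, ?_, ?_⟩
  · simp only [lt_irrefl, if_false, if_true]
    rw [if_neg (by omega), if_neg (by omega), if_neg (by omega)]
  · simp only [lt_irrefl, if_false, if_true]
    rw [if_neg (by omega), if_pos (by omega), show (7 + 6 * i - 4) / 6 = i by omega]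
  · simp only [lt_irrefl, if_false, if_true]
    rw [if_neg (by omega), if_neg (by omega), if_pos (by omega),
      show (8 + 6 * i - 4) / 6 = i by omega]
  · simp only [lt_irrefl, if_false, if_true]
    rw [if_neg (by omega), if_neg (by omega), if_neg (by omega)]

theorem TR2_psi1 (i : ℕ) :
    TR2_psi p (p.K0 + 1, 3) = lat (p.K0 + 1) 3 ∧
    TR2_psi p (p.K0 + 1, 5 + 6 * i) = lat p.K0 (5 + 6 * i) ∧
    TR2_psi p (p.K0 + 1, 6 + 6 * i) = lat p.K0 (6 + 6 * i) ∧
    TR2_psi p (p.K0 + 1, 7 + 6 * i) = ring i 0 ∧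
    TR2_psi p (p.K0 + 1, 8 + 6 * i) = ring i 3 := by
  unfold TR2_psi
  have h1 : ¬ (p.K0 + 1 < p.K0) := by omega
  have h2 : ¬ (p.K0 + 1 = p.K0) := by omega
  refine ⟨?_, ?_, ?_, ?_, ?_⟩
  · simp only [h1, h2, if_false, if_true]
    rw [if_pos (by omega)]
  · simp only [h1, h2, if_false, if_true]
    rw [if_neg (by omega), if_pos (by omega)]
  · simp only [h1, h2, if_false, if_true]
    rw [if_neg (by omega), if_neg (by omega), if_pos (by omega)]
  · simp only [h1, h2, if_false, if_true]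
    rw [if_neg (by omega), if_neg (by omega), if_neg (by omega), if_pos (by omega),
      show (7 + 6 * i - 4) / 6 = i by omega]
  · simp only [h1, h2, if_false, if_true]
    rw [if_neg (by omega), if_neg (by omega), if_neg (by omega), if_neg (by omega),
      show (8 + 6 * i - 4) / 6 = i by omega]

theorem TR2_psi2 (y : ℕ) (hy : 4 ≤ y) :
    TR2_psi p (p.K0 + 2, 3) = lat (p.K0 + 1) 3 ∧
    TR2_psi p (p.K0 + 2, y) = lat (p.K0 + 1) (y - 1) := by
  unfold TR2_psi
  have h1 : ¬ (p.K0 + 2 < p.K0) := by omega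
  have h2 : ¬ (p.K0 + 2 = p.K0) := by omega
  have h3 : ¬ (p.K0 + 2 = p.K0 + 1) := by omega
  refine ⟨?_, ?_⟩
  · simp only [h1, h2, h3, if_false]
    rw [if_pos (by omega)]
  · simp only [h1, h2, h3, if_false]
    rw [if_neg (by omega)]

/-- the bits of the ring pairs as used pairs -/
theorem TR2_ringE (cl : TR2_Cl p hU vU S) {i c : ℕ} (hi : i < p.rows) (hc : c < 4)
    (hb : TR2_rb p hU vU i c = true) : S (ring i c) ↔ S (ring i ((c + 1) % 4)) :=
  TR2_iff cl (Or.inr (Or.inl (Or.inr (Or.inr ⟨i, c, hi, hc, hb, rfl, rfl⟩))))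

theorem TR2_hor (nf : p.NF) (fk : p.FK) (fn : p.FN)
    (use : Use (hC p.s p.M) (vC p.s p.M) hU vU) (cl : TR2_Cl p hU vU S) {x y : ℕ}
    (hu : hU x y = true) : S (TR2_psi p (x, y)) ↔ S (TR2_psi p (x + 1, y)) := by
  have hcost : hC p.s p.M x y = 0 ∨ hC p.s p.M x y = 2 := by
    by_contra hc
    push Not at hc
    rw [use.h4 x y hc.1 hc.2] at hu
    exact absurd hu (by simp)
  rcases lt_trichotomy (x + 1) p.K0 with hx | hx | hx
  · rw [TR2_psi0 (show x < p.K0 by omega), TR2_psi0 hx]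
    rcases hcost with h | h
    · rw [← TR2_h (show x < p.K0 by omega)] at h
      rw [TR2_lh fn cl h (TR2_hub nf (by omega)), TR2_hl fn cl h (TR2_hub nf (by omega))]
    · rw [← TR2_h (show x < p.K0 by omega)] at h
      exact TR2_iff cl (Or.inr (Or.inl (Or.inl ⟨x, y, by omega, h, hu, rfl, rfl⟩)))
  · rw [← TR2_h (show x < p.K0 by omega)] at hcost
    have h : p.h x y = 0 := by
      rcases hcost with h | h
      · exact h
      · have := (nf.oh x y h).2.1
        omega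
    rw [TR2_psi0 (show x < p.K0 by omega), TR2_lh fn cl h (TR2_hub nf (by omega))]
    have h' := h
    rw [show x = p.K0 - 1 by omega] at h'
    rcases (nf.k0l y).1 h' with h1 | ⟨i, hi, h1 | h1 | h1⟩
    · rw [TR2_hl fn cl h (TR2_hub nf (by omega)), h1, hx, TR2_psi3]
    · rw [TR2_hl fn cl h (TR2_hub nf (by omega)), h1, hx, (TR2_psiK i).1]
    · rw [h1, hx, (TR2_psiK i).2.1, TR2_mid fk fn cl hi (show 1 < 4 by norm_num)]
      unfold Par.mid
      rw [if_neg (by norm_num), if_pos rfl, ← hx]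
      simp
    · rw [TR2_hl fn cl h (TR2_hub nf (by omega)), h1, hx, (TR2_psiK i).2.2.2]
  · obtain ⟨j, rfl⟩ := Nat.exists_eq_add_of_le (show p.K0 ≤ x by omega)
    rcases TR2_line p y with hy | ⟨i, hi, r, hr, rfl⟩ | hy
    · rw [TR2_hC, if_pos hy] at hcost
      have h1 : y = 3 ∧ j < 2 := by
        by_contra hc
        rw [if_neg hc] at hcost
        omega
      obtain ⟨rfl, hj⟩ := h1
      interval_cases j
      · rw [Nat.add_zero, TR2_psi3, (TR2_psi1 0).1]
        have h := (nf.k0h 3).2 (Or.inl rfl)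
        rw [TR2_lh fn cl h (TR2_hub nf (by omega)), TR2_hl fn cl h (TR2_hub nf (by omega))]
      · rw [(TR2_psi1 0).1, (TR2_psi2 4 (by norm_num)).1]
    · rw [TR2_hCr p hi hr] at hcost
      have hj : j < 2 := by
        by_contra hj
        obtain ⟨j', rfl⟩ := Nat.exists_eq_add_of_le (show 2 ≤ j by omega)
        rw [show 2 + j' = j' + 2 by omega] at hcost
        interval_cases r <;> simp [hR] at hcost
      interval_cases j
      · interval_cases r <;> simp [hR] at hcost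
        · rw [show 4 + 1 + 6 * i = 5 + 6 * i by omega, Nat.add_zero, (TR2_psiK i).1,
            (TR2_psi1 i).2.1]
        · rw [show 4 + 3 + 6 * i = 7 + 6 * i by omega, Nat.add_zero] at *
          rw [(TR2_psiK i).2.1, (TR2_psi1 i).2.2.2.1]
          exact (TR2_ringE cl hi (show 0 < 4 by norm_num) (by simpa [TR2_rb] using hu)).symm
        · rw [show 4 + 4 + 6 * i = 8 + 6 * i by omega, Nat.add_zero] at *
          rw [(TR2_psiK i).2.2.1, (TR2_psi1 i).2.2.2.2]
          exact TR2_ringE cl hi (show 2 < 4 by norm_num) (by simpa [TR2_rb] using hu)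
      · interval_cases r <;> simp [hR] at hcost
        rw [show 4 + 4 + 6 * i = 8 + 6 * i by omega] at *
        rw [(TR2_psi1 i).2.2.2.2, (TR2_psi2 (8 + 6 * i) (by omega)).2,
          TR2_mid fk fn cl hi (show 3 < 4 by norm_num)]
        unfold Par.mid
        rw [if_neg (by norm_num), if_neg (by norm_num), if_neg (by norm_num),
          show 8 + 6 * i - 1 = 7 + 6 * i by omega]
        exact TR2_hl fn cl ((nf.k0h _).2 (Or.inr ⟨i, hi, rfl⟩)) (TR2_hub nf (by omega))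
    · rw [TR2_hC, if_neg (by omega), if_neg hy.2] at hcost
      omega

/-- vertical costs of the column `K0 + 1` of the drawing -/
theorem TR2_v1 (y : ℕ) : p.v (p.K0 + 1) y = 0 ↔ 3 ≤ y ∧ (y - 1) / 6 % 2 = 0 ∧
    (y - 1) / 6 ≤ 2 * p.M := by
  unfold Par.v
  rw [if_neg (by omega), if_neg (by omega), if_pos rfl]
  split_ifs with h
  · simp [h]
  · simp [h]

theorem TR2_ver (nf : p.NF) (fk : p.FK) (fn : p.FN)
    (use : Use (hC p.s p.M) (vC p.s p.M) hU vU) (cl : TR2_Cl p hU vU S) {x y : ℕ}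
    (hu : vU x y = true) : S (TR2_psi p (x, y)) ↔ S (TR2_psi p (x, y + 1)) := by
  have hcost : vC p.s p.M x y = 0 ∨ vC p.s p.M x y = 2 := by
    by_contra hc
    push Not at hc
    rw [use.v4 x y hc.1 hc.2] at hu
    exact absurd hu (by simp)
  by_cases hx : x < p.K0
  · rw [TR2_psi0 hx, TR2_psi0 hx]
    rcases hcost with h | h
    · rw [← TR2_v hx] at h
      rw [TR2_lv fn cl h (TR2_hub nf (by omega)), TR2_vl fn cl h (TR2_hub nf (by omega))]
    · rw [← TR2_v hx] at h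
      exact TR2_iff cl (Or.inr (Or.inl (Or.inr (Or.inl ⟨x, y, hx, h, hu, rfl, rfl⟩))))
  · obtain ⟨j, rfl⟩ := Nat.exists_eq_add_of_le (show p.K0 ≤ x by omega)
    rcases TR2_line p y with hy | ⟨i, hi, r, hr, rfl⟩ | hy
    · rw [TR2_vC, if_pos hy] at hcost
      have h1 : y = 3 ∧ j = 2 := by
        by_contra hc
        rw [if_neg hc] at hcost
        omega
      obtain ⟨rfl, rfl⟩ := h1
      rw [(TR2_psi2 4 (by norm_num)).1, show 3 + 1 = 4 by norm_num,
        (TR2_psi2 4 (by norm_num)).2]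
    · rw [TR2_vCr p hi hr] at hcost
      have hj : j < 3 := by
        by_contra hj
        obtain ⟨j', rfl⟩ := Nat.exists_eq_add_of_le (show 3 ≤ j by omega)
        rw [show 3 + j' = j' + 3 by omega] at hcost
        simp [vR] at hcost
      interval_cases j
      · interval_cases r <;> simp [vR] at hcost
        · rw [show 4 + 3 + 6 * i = 7 + 6 * i by omega, Nat.add_zero] at *
          rw [show 7 + 6 * i + 1 = 8 + 6 * i by omega, (TR2_psiK i).2.1, (TR2_psiK i).2.2.1]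
          exact TR2_ringE cl hi (show 1 < 4 by norm_num) (by simpa [TR2_rb] using hu)
        · rw [show 4 + 4 + 6 * i = 8 + 6 * i by omega, Nat.add_zero] at *
          rw [show 8 + 6 * i + 1 = 9 + 6 * i by omega, (TR2_psiK i).2.2.1, (TR2_psiK i).2.2.2,
            TR2_mid fk fn cl hi (show 2 < 4 by norm_num)]
          unfold Par.mid
          rw [if_neg (by norm_num), if_neg (by norm_num), if_pos rfl]
          have g1 : p.v p.K0 (7 + 6 * i) = 0 := (nf.k0v _).2 ⟨i, hi, by omega⟩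
          have g2 : p.v p.K0 (8 + 6 * i) = 0 := (nf.k0v _).2 ⟨i, hi, by omega⟩
          rw [TR2_vl fn cl g1 (TR2_hub nf (by omega)), show 7 + 6 * i + 1 = 8 + 6 * i by omega,
            TR2_lv fn cl g2 (TR2_hub nf (by omega)), TR2_vl fn cl g2 (TR2_hub nf (by omega)),
            show 8 + 6 * i + 1 = 9 + 6 * i by omega]
      · interval_cases r <;> simp [vR] at hcost
        · rw [show 4 + 1 + 6 * i = 5 + 6 * i by omega] at *
          have g1 : p.v p.K0 (5 + 6 * i) = 0 := (nf.k0v _).2 ⟨i, hi, by omega⟩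
          rw [show 5 + 6 * i + 1 = 6 + 6 * i by omega, (TR2_psi1 i).2.1, (TR2_psi1 i).2.2.1,
            TR2_lv fn cl g1 (TR2_hub nf (by omega)), TR2_vl fn cl g1 (TR2_hub nf (by omega)),
            show 5 + 6 * i + 1 = 6 + 6 * i by omega]
        · rw [show 4 + 2 + 6 * i = 6 + 6 * i by omega] at *
          have g1 : p.v p.K0 (6 + 6 * i) = 0 := (nf.k0v _).2 ⟨i, hi, by omega⟩
          rw [show 6 + 6 * i + 1 = 7 + 6 * i by omega, (TR2_psi1 i).2.2.1,
            (TR2_psi1 i).2.2.2.1, TR2_lv fn cl g1 (TR2_hub nf (by omega)),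
            TR2_mid fk fn cl hi (show 0 < 4 by norm_num)]
          unfold Par.mid
          rw [if_pos rfl]
        · rw [show 4 + 3 + 6 * i = 7 + 6 * i by omega] at *
          rw [show 7 + 6 * i + 1 = 8 + 6 * i by omega, (TR2_psi1 i).2.2.2.1,
            (TR2_psi1 i).2.2.2.2]
          exact (TR2_ringE cl hi (show 3 < 4 by norm_num) (by simpa [TR2_rb] using hu)).symm
      · rw [(TR2_psi2 (4 + r + 6 * i) (by omega)).2, (TR2_psi2 (4 + r + 6 * i + 1) (by omega)).2]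
        have g1 : p.v (p.K0 + 1) (4 + r + 6 * i - 1) = 0 := by
          rw [TR2_v1]
          have h1 : i % 2 = 0 ∧ r < 4 ∨ i % 2 = 1 ∧ 4 ≤ r := by
            rcases Nat.mod_two_eq_zero_or_one i with h | h
            · left
              by_contra hc
              simp [vR, h, show ¬ r < 4 by omega] at hcost
            · right
              by_contra hc
              simp [vR, h, show ¬ 4 ≤ r by omega] at hcost
          unfold Par.rows at hi
          rcases h1 with h1 | h1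
          · have e1 : (4 + r + 6 * i - 1 - 1) / 6 = i := by omega
            rw [e1]
            omega
          · have e1 : (4 + r + 6 * i - 1 - 1) / 6 = i + 1 := by omega
            rw [e1]
            omega
        rw [TR2_lv fn cl g1 (TR2_hub nf (by omega)), TR2_vl fn cl g1 (TR2_hub nf (by omega)),
          show 4 + r + 6 * i - 1 + 1 = 4 + r + 6 * i + 1 - 1 by omega]
    · rw [TR2_vC, if_neg (by omega), if_neg hy.2] at hcost
      omega

theorem TR2_vc2 {y : ℕ} (h : p.v (p.K0 + 1) y = 0) :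
    vC p.s p.M (p.K0 + 2) (y + 1) = 0 := by
  rw [TR2_v1] at h
  rcases TR2_line p (y + 1) with hy | ⟨i, hi, r, hr, hy⟩ | hy
  · omega
  · rw [hy, TR2_vCr p hi hr]
    by_cases h4 : r < 4
    · have h1 : i % 2 = 0 := by
        have e : (y - 1) / 6 = i := by omega
        rw [e] at h
        exact h.2.1
      simp [vR, h1, h4]
    · have h1 : i % 2 = 1 := by
        have e : (y - 1) / 6 = i + 1 := by omega
        rw [e] at h
        omega
      simp [vR, h1, show 4 ≤ r by omega]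
  · have h2 := hy.2
    unfold Par.rows at h2
    omega

theorem TR2_alat (nf : p.NF) (fn : p.FN) (cl : TR2_Cl p hU vU S) {x y : ℕ}
    (h0 : p.fd x y ≠ 0) (hh : p.hub x y = false) :
    ∃ q : Pt, Vert (hC p.s p.M) (vC p.s p.M) q ∧ (S (lat x y) ↔ S (TR2_psi p q)) := by
  obtain ⟨b1, b2, b3, b4⟩ := nf.box x y h0
  have hfd : p.h x y = 0 ∨ p.h (x - 1) y = 0 ∨ p.v x y = 0 ∨ p.v x (y - 1) = 0 := by
    by_contra hc
    push Not at hc
    apply h0
    unfold Par.fd
    simp [hc.1, hc.2.1, hc.2.2.1, hc.2.2.2]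
  have hhub : ∀ i < p.rows, ¬ (x = p.K0 ∧ y = 7 + 6 * i) := by
    rintro i hi ⟨rfl, rfl⟩
    rw [(nf.hubI _ _).2 ⟨rfl, i, hi, rfl⟩] at hh
    exact absurd hh (by simp)
  rcases lt_trichotomy x p.K0 with hx | rfl | hx
  · refine ⟨(x, y), ?_, by rw [TR2_psi0 hx]⟩
    unfold Vert
    rw [← TR2_h hx, ← TR2_h (show x - 1 < p.K0 by omega), ← TR2_v hx, ← TR2_v hx]
    exact hfd
  · have hy : y = 3 ∨ ∃ i < p.rows, y = 5 + 6 * i ∨ y = 6 + 6 * i ∨ y = 8 + 6 * i ∨
        y = 9 + 6 * i := by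
      rcases hfd with h | h | h | h
      · rcases (nf.k0h y).1 h with h | ⟨i, hi, h⟩
        · exact Or.inl h
        · exact absurd ⟨rfl, h⟩ (hhub i hi)
      · rcases (nf.k0l y).1 h with h | ⟨i, hi, h | h | h⟩
        · exact Or.inl h
        · exact Or.inr ⟨i, hi, Or.inl h⟩
        · exact absurd ⟨rfl, h⟩ (hhub i hi)
        · exact Or.inr ⟨i, hi, Or.inr (Or.inr (Or.inr h))⟩
      · obtain ⟨i, hi, h | h | h | h⟩ := (nf.k0v y).1 h
        · exact Or.inr ⟨i, hi, Or.inl h⟩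
        · exact Or.inr ⟨i, hi, Or.inr (Or.inl h)⟩
        · exact absurd ⟨rfl, h⟩ (hhub i hi)
        · exact Or.inr ⟨i, hi, Or.inr (Or.inr (Or.inl h))⟩
      · obtain ⟨i, hi, h | h | h | h⟩ := (nf.k0v (y - 1)).1 h
        · exact Or.inr ⟨i, hi, by omega⟩
        · exact absurd ⟨rfl, by omega⟩ (hhub i hi)
        · exact Or.inr ⟨i, hi, by omega⟩
        · exact Or.inr ⟨i, hi, by omega⟩
    rcases hy with rfl | ⟨i, hi, rfl | rfl | rfl | rfl⟩
    · refine ⟨(p.K0, 3), Or.inl ?_, by rw [TR2_psi3]⟩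
      have := TR2_hC p 0 3
      simpa using this
    · refine ⟨(p.K0, 5 + 6 * i), Or.inl ?_, by rw [(TR2_psiK i).1]⟩
      have := TR2_hCr p hi (show 1 < 6 by norm_num) 0
      rw [show 4 + 1 + 6 * i = 5 + 6 * i by omega] at this
      simpa [hR] using this
    · refine ⟨(p.K0 + 1, 6 + 6 * i), Or.inr (Or.inr (Or.inl ?_)), by rw [(TR2_psi1 i).2.2.1]⟩
      have := TR2_vCr p hi (show 2 < 6 by norm_num) 1
      rw [show 4 + 2 + 6 * i = 6 + 6 * i by omega] at this
      simpa [vR] using this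
    · have g2 : p.v p.K0 (8 + 6 * i) = 0 := (nf.k0v _).2 ⟨i, hi, by omega⟩
      refine ⟨(p.K0, 8 + 6 * i + 1), Or.inr (Or.inr (Or.inr ?_)), ?_⟩
      · have := TR2_vCr p hi (show 4 < 6 by norm_num) 0
        rw [show 4 + 4 + 6 * i = 8 + 6 * i by omega] at this
        simpa [vR] using this
      · rw [TR2_lv fn cl g2 (TR2_hub nf (by omega)), TR2_vl fn cl g2 (TR2_hub nf (by omega)),
          show 8 + 6 * i + 1 = 9 + 6 * i by omega, (TR2_psiK i).2.2.2]
    · refine ⟨(p.K0, 9 + 6 * i), Or.inr (Or.inr (Or.inr ?_)), by rw [(TR2_psiK i).2.2.2]⟩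
      have := TR2_vCr p hi (show 4 < 6 by norm_num) 0
      rw [show 4 + 4 + 6 * i = 9 + 6 * i - 1 by omega] at this
      simpa [vR] using this
  · have hx : x = p.K0 + 1 := by omega
    subst hx
    rw [Nat.add_sub_cancel] at hfd
    have hh1 : p.h (p.K0 + 1) y ≠ 0 := by
      unfold Par.h
      rw [if_neg (by omega), if_neg (by omega)]
      norm_num
    by_cases hy : y = 3
    · subst hy
      refine ⟨(p.K0 + 1, 3), Or.inl ?_, by rw [(TR2_psi1 0).1]⟩
      have := TR2_hC p 1 3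
      simpa using this
    · have hV : 3 ≤ y ∧ Vert (hC p.s p.M) (vC p.s p.M) (p.K0 + 2, y + 1) := by
        rcases hfd with h | h | h | h
        · exact absurd h hh1
        · rcases (nf.k0h y).1 h with h | ⟨i, hi, h⟩
          · exact absurd h hy
          · refine ⟨by omega, Or.inr (Or.inl ?_)⟩
            have := TR2_hCr p hi (show 4 < 6 by norm_num) 1
            rw [show 4 + 4 + 6 * i = y + 1 by omega] at this
            simpa [hR] using this
        · exact ⟨((TR2_v1 y).1 h).1, Or.inr (Or.inr (Or.inl (TR2_vc2 h)))⟩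
        · refine ⟨by have := ((TR2_v1 (y - 1)).1 h).1; omega, Or.inr (Or.inr (Or.inr ?_))⟩
          have := TR2_vc2 h
          rw [show y - 1 + 1 = y by omega] at this
          simpa using this
      refine ⟨(p.K0 + 2, y + 1), hV.2, ?_⟩
      rw [(TR2_psi2 (y + 1) (by omega)).2]
      simp

theorem TR2_aring (nf : p.NF) {i c : ℕ} (hi : i < p.rows) (hc : c < 4) :
    ∃ q : Pt, Vert (hC p.s p.M) (vC p.s p.M) q ∧ (S (ring i c) ↔ S (TR2_psi p q)) := by
  interval_cases c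
  · refine ⟨(p.K0 + 1, 7 + 6 * i), Or.inr (Or.inr (Or.inr ?_)), by rw [(TR2_psi1 i).2.2.2.1]⟩
    have := TR2_vCr p hi (show 2 < 6 by norm_num) 1
    rw [show 4 + 2 + 6 * i = 7 + 6 * i - 1 by omega] at this
    simpa [vR] using this
  · refine ⟨(p.K0, 7 + 6 * i), Or.inr (Or.inl ?_), by rw [(TR2_psiK i).2.1]⟩
    have h : p.h (p.K0 - 1) (7 + 6 * i) = 0 := (nf.k0l _).2 (Or.inr ⟨i, hi, by omega⟩)
    rw [TR2_h (by unfold Par.K0; omega)] at h
    exact h
  · refine ⟨(p.K0, 8 + 6 * i), Or.inr (Or.inr (Or.inl ?_)), by rw [(TR2_psiK i).2.2.1]⟩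
    have := TR2_vCr p hi (show 4 < 6 by norm_num) 0
    rw [show 4 + 4 + 6 * i = 8 + 6 * i by omega] at this
    simpa [vR] using this
  · refine ⟨(p.K0 + 1, 8 + 6 * i), Or.inl ?_, by rw [(TR2_psi1 i).2.2.2.2]⟩
    have := TR2_hCr p hi (show 4 < 6 by norm_num) 1
    rw [show 4 + 4 + 6 * i = 8 + 6 * i by omega] at this
    simpa [hR] using this

theorem TR2_all (nf : p.NF) (vm' : p.VM) (fk : p.FK) (fn : p.FN) (cl : TR2_Cl p hU vU S)
    {a : Vx} (ha : a ∈ p.V) :
    ∃ q : Pt, Vert (hC p.s p.M) (vC p.s p.M) q ∧ (S a ↔ S (TR2_psi p q)) := by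
  rcases vm'.form a ha with ⟨x, y, rfl⟩ | ⟨x, y, rfl⟩ | ⟨x, y, rfl⟩ | ⟨i, c, rfl⟩ |
    ⟨i, c, k, rfl⟩
  · obtain ⟨h0, hh⟩ := (vm'.lat x y).1 ha
    exact TR2_alat nf fn cl h0 hh
  · have h := (vm'.hm x y).1 ha
    by_cases hh : p.hub x y = false
    · obtain ⟨q, h1, h2⟩ := TR2_alat nf fn cl (x := x) (y := y)
        (by unfold Par.fd; simp [h]) hh
      exact ⟨q, h1, (TR2_lh fn cl h hh).symm.trans h2⟩
    · have hh' : p.hub (x + 1) y = false := by
        refine TR2_hub nf fun h1 => ?_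
        rw [Bool.not_eq_false] at hh
        have := ((nf.hubI x y).1 hh).1
        omega
      obtain ⟨q, h1, h2⟩ := TR2_alat nf fn cl (x := x + 1) (y := y)
        (by unfold Par.fd; simp [h]) hh'
      exact ⟨q, h1, (TR2_hl fn cl h hh').trans h2⟩
  · have h := (vm'.vm x y).1 ha
    by_cases hh : p.hub x y = false
    · obtain ⟨q, h1, h2⟩ := TR2_alat nf fn cl (x := x) (y := y)
        (by unfold Par.fd; simp [h]) hh
      exact ⟨q, h1, (TR2_lv fn cl h hh).symm.trans h2⟩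
    · have hh' : p.hub x (y + 1) = false := by
        refine TR2_hub nf fun h1 j h2 => ?_
        rw [Bool.not_eq_false] at hh
        obtain ⟨-, i, -, h3⟩ := (nf.hubI x y).1 hh
        omega
      obtain ⟨q, h1, h2⟩ := TR2_alat nf fn cl (x := x) (y := y + 1)
        (by unfold Par.fd; simp [h]) hh'
      exact ⟨q, h1, (TR2_vl fn cl h hh').trans h2⟩
  · obtain ⟨hi, hc⟩ := (vm'.ring i c).1 ha
    exact TR2_aring nf hi hc
  · obtain ⟨hi, hc, hk, hcn⟩ := (vm'.coin i c k).1 ha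
    obtain ⟨q, h1, h2⟩ := TR2_aring (S := S) nf hi hc
    exact ⟨q, h1, (TR2_arm fn cl hi hc k ((fk.cn i hi c hc k).1 hcn) hk).symm.trans h2⟩

end conn

/-- (TR2) -/
theorem tr2 : specTR2 := by
  intro p W hU vU _ nf vm' fk fn use
  refine ⟨TR2_E p hU vU, ⟨?_, ?_, ?_, ?_, ?_⟩, ?_, ?_, ?_⟩
  · exact fun a b h => TR2_symm h
  · rintro a b (h | h | h)
    · rcases h with h | h
      · exact (fn.memV _ _ h).2.2
      · exact (fn.memV _ _ h).2.2.symm
    · rcases h with ⟨x, y, h1, h2, -, rfl, rfl⟩ | ⟨x, y, h1, h2, -, rfl, rfl⟩ |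
        ⟨i, c, h1, h2, -, rfl, rfl⟩
      · simp
      · simp
      · intro h
        simp only [Prod.mk.injEq, true_and, and_true] at h
        omega
    · rcases h with ⟨x, y, h1, h2, -, rfl, rfl⟩ | ⟨x, y, h1, h2, -, rfl, rfl⟩ |
        ⟨i, c, h1, h2, -, rfl, rfl⟩
      · simp
      · simp
      · intro h
        simp only [Prod.mk.injEq, true_and, and_true] at h
        omega
  · have key : ∀ a b, TR2_U1 p hU vU a b → a ∈ p.V ∧ b ∈ p.V := by
      rintro a b (⟨x, y, h1, h2, -, rfl, rfl⟩ | ⟨x, y, h1, h2, -, rfl, rfl⟩ |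
        ⟨i, c, h1, h2, -, rfl, rfl⟩)
      · obtain ⟨g1, g2, g3, g4, g5⟩ := nf.oh x y h2
        exact ⟨(vm'.lat _ _).2 ⟨by omega, TR2_hub nf (by omega)⟩,
          (vm'.lat _ _).2 ⟨by omega, TR2_hub nf (by omega)⟩⟩
      · obtain ⟨g1, g2, g3, g4, g5⟩ := nf.ov x y h2
        exact ⟨(vm'.lat _ _).2 ⟨by omega, TR2_hub nf (by omega)⟩,
          (vm'.lat _ _).2 ⟨by omega, TR2_hub nf (by omega)⟩⟩
      · exact ⟨(vm'.ring _ _).2 ⟨h1, h2⟩, (vm'.ring _ _).2 ⟨h1, Nat.mod_lt _ (by norm_num)⟩⟩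
    rintro a b (h | h | h)
    · rcases h with h | h
      · exact (fn.memV _ _ h).1
      · exact (fn.memV _ _ h).2.1
    · exact (key a b h).1
    · exact (key b a h).2
  · intro a ha
    rcases vm'.form a ha with ⟨x, y, rfl⟩ | ⟨x, y, rfl⟩ | ⟨x, y, rfl⟩ | ⟨i, c, rfl⟩ |
      ⟨i, c, k, rfl⟩
    · obtain ⟨h0, hh⟩ := (vm'.lat x y).1 ha
      exact TR2_two_lat nf fn use h0 hh
    · exact TR2_two_hm fn ((vm'.hm x y).1 ha)
    · exact TR2_two_vm fn ((vm'.vm x y).1 ha)
    · obtain ⟨hi, hc⟩ := (vm'.ring i c).1 ha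
      exact TR2_two_ring nf fn use hi hc
    · obtain ⟨hi, hc, hk, hcn⟩ := (vm'.coin i c k).1 ha
      exact TR2_two_coin fn hi hc ((fk.cn i hi c hc k).1 hcn) hk
  · intro S cl a b ha hb hS
    obtain ⟨qa, h1, h2⟩ := TR2_all nf vm' fk fn cl ha
    obtain ⟨qb, h3, h4⟩ := TR2_all nf vm' fk fn cl hb
    exact h4.2 (use.cut (fun q => S (TR2_psi p q)) (fun x y h => TR2_hor nf fk fn use cl h)
      (fun x y h => TR2_ver nf fk fn use cl h) qa qb h1 h3 (h2.1 hS))
  · exact fun a b h => Or.inl h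
  · rintro a b (h | h | h)
    · exact Or.inl h
    · exact Or.inr (Or.inl (TR2_O h))
    · exact Or.inr (Or.inr (TR2_O h))
  · intro i hi
    constructor
    · intro h
      exact Or.inr (Or.inl (Or.inr (Or.inr ⟨i, 1, hi, by norm_num, by simpa [TR2_rb] using h,
        rfl, rfl⟩)))
    · rintro (h | h | h)
      · rw [fn.ring i hi 1 (by norm_num)] at h
        simp at h
      · rcases h with ⟨x, y, h1, h2, h3, h4, h5⟩ | ⟨x, y, h1, h2, h3, h4, h5⟩ |
          ⟨i', c, h1, h2, h3, h4, h5⟩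
        · simp at h4
        · simp at h4
        · simp only [Prod.mk.injEq, true_and, and_true] at h4
          obtain ⟨rfl, rfl⟩ := h4
          simpa [TR2_rb] using h3
      · rcases h with ⟨x, y, h1, h2, h3, h4, h5⟩ | ⟨x, y, h1, h2, h3, h4, h5⟩ |
          ⟨i', c, h1, h2, h3, h4, h5⟩
        · simp at h4
        · simp at h4
        · simp only [Prod.mk.injEq, true_and, and_true] at h4 h5
          omega

end Pool.Agent.Helper56.ES
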